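import Pool.Agent.H890.C.Main

set_option autoImplicit false
set_option linter.unusedSectionVars false
set_option linter.unusedVariables false

/-!
# Short cycles appear in the largest components of critical hierarchical percolation

For every `d ≥ 1`, every `L ≥ 2`, every kernel `ρ` with `A₁ r^{-α} ≤ ρ(r) ≤ A₂ r^{-α}` and every
`α` with `7d/9 < α < d`: with probability tending to one every largest component of `G_n`
contains a cycle of length at most three (a triangle).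
-/

namespace Pool.Agent.Results.MP_c53cb9_pr.TrianglesAppear

open Finset Filter Topology Classical

/-- The ball `Λ_n` of the hierarchical group: the sequences `(x_1, …, x_n)` in `(ℤ/Lℤ)^d`
(the entry `x_{i+1}` is `x i`, `i : Fin n`). -/
abbrev Lam (d L n : ℕ) := Fin n → Fin d → ZMod L

/-- The hierarchical norm: `‖0‖ = 0`, and `‖x‖ = L^i` with `i` the largest index in `{1,…,n}`
such that `x_i ≠ 0`, for `x ≠ 0`. -/
noncomputable def hnorm {d L n : ℕ} (x : Lam d L n) : ℝ :=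
  if x = 0 then 0 else (L : ℝ) ^ (univ.sup (fun i : Fin n => if x i = 0 then 0 else (i : ℕ) + 1))

/-- `z` is a positive solution of the equation that defines `ζ_n`. -/
def IsZeta (d L : ℕ) (ρ : ℝ → ℝ) (n : ℕ) (z : ℝ) : Prop :=
  0 < z ∧ ((L : ℝ) ^ d - 1) * ∑ i ∈ Finset.Icc 1 n,
    (L : ℝ) ^ ((i - 1) * d) * Real.exp (-(z⁻¹ * ρ ((L : ℝ) ^ i))) = (L : ℝ) ^ (n * d) - 2

/-- `κ^{(n)}_λ(x, y) = max {J(x, y) / ζ_n + λ L^{-4nd/3}, 0}`, with `J(x, y) = ρ(‖x - y‖)` and
`z = ζ_n`. -/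
noncomputable def kappa (d L n : ℕ) (ρ : ℝ → ℝ) (z lam : ℝ) (x y : Lam d L n) : ℝ :=
  max (ρ (hnorm (x - y)) / z + lam * (L : ℝ) ^ (-(4 * (n : ℝ) * d / 3))) 0

theorem hnorm_sub_comm {d L n : ℕ} (x y : Lam d L n) : hnorm (x - y) = hnorm (y - x) := by
  unfold hnorm
  have h1 : ∀ i, (x - y) i = 0 ↔ (y - x) i = 0 := by
    intro i
    simp only [Pi.sub_apply, sub_eq_zero]
    exact eq_comm
  have h2 : x - y = 0 ↔ y - x = 0 := by
    rw [sub_eq_zero, sub_eq_zero]; exact eq_comm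
  simp only [h1, h2]

/-- The probability that the pair `{x, y}` is joined: `1 - exp(-κ^{(n)}_λ(x, y))`. -/
noncomputable def edgeProb (d L n : ℕ) (ρ : ℝ → ℝ) (z lam : ℝ) : Sym2 (Lam d L n) → ℝ :=
  Sym2.lift ⟨fun x y => 1 - Real.exp (-(kappa d L n ρ z lam x y)), fun x y => by
    simp only [kappa, hnorm_sub_comm x y]⟩

/-- The simple graph whose edges are the pairs `{x, y}`, `x ≠ y`, with `ω {x, y} = true`. -/
def graphOf {V : Type} (ω : Sym2 V → Bool) : SimpleGraph V :=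
  SimpleGraph.fromEdgeSet {e | ω e = true}

/-- The probability of the event `E` for the random graph on `V` in which every pair `{x, y}`,
`x ≠ y`, is joined independently with probability `π {x, y}` (the coordinates of `ω` at the
diagonal pairs `{x, x}` play no role: `graphOf ω` ignores them). -/
noncomputable def prob {V : Type} [Fintype V] [DecidableEq V] (π : Sym2 V → ℝ)
    (E : Set (SimpleGraph V)) : ℝ :=
  ∑ ω : Sym2 V → Bool, if graphOf ω ∈ E then ∏ e, (if ω e = true then π e else 1 - π e) else 0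

/-- `G` has a cycle of length at most `m` inside the connected component `c`. -/
def HasShortCycle {V : Type} (G : SimpleGraph V) (c : G.ConnectedComponent) (m : ℕ) : Prop :=
  ∃ (v : V) (w : G.Walk v v), v ∈ c.supp ∧ w.IsCycle ∧ w.length ≤ m

/-- Every largest connected component of `G` (every component with the maximal number of
vertices) contains a cycle of length at most `m`. -/
def LargestHasShortCycle {V : Type} (m : ℕ) (G : SimpleGraph V) : Prop :=
  ∀ c : G.ConnectedComponent, (∀ c' : G.ConnectedComponent, c'.supp.ncard ≤ c.supp.ncard) →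
    HasShortCycle G c m

/-! ### Translation -/

open Pool.Agent.H890.C

section graph

variable {V : Type} [Fintype V] [DecidableEq V]

theorem adj_iff (ω : Sym2 V → Bool) (x y : V) :
    (graphOf ω).Adj x y ↔ ω s(x, y) = true ∧ x ≠ y := by
  unfold graphOf
  rw [SimpleGraph.fromEdgeSet_adj]
  rfl

theorem reach_iff (ω : Sym2 V → Bool) (x y : V) :
    (graphOf ω).Reachable x y ↔ Rch ω univ x y := by
  constructor
  · rintro ⟨w⟩
    induction w with
    | nil => exact Rch.refl (mem_univ _)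
    | cons h _ ih =>
      rw [adj_iff] at h
      exact Rch.head (mem_univ _) h.2 h.1 ih
  · intro h
    induction h with
    | refl _ => exact SimpleGraph.Reachable.refl _
    | tail _ _ hne ho ih =>
      exact ih.trans (SimpleGraph.Adj.reachable ((adj_iff ω _ _).2 ⟨ho, hne⟩))

theorem supp_eq (ω : Sym2 V → Bool) (x : V) :
    ((graphOf ω).connectedComponentMk x).supp = (cl ω univ x : Set V) := by
  ext y
  rw [SimpleGraph.ConnectedComponent.mem_supp_iff, SimpleGraph.ConnectedComponent.eq,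
    Finset.mem_coe, mem_cl, ← reach_iff]
  exact ⟨fun h => h.symm, fun h => h.symm⟩

theorem ncard_eq (ω : Sym2 V → Bool) (x : V) :
    ((graphOf ω).connectedComponentMk x).supp.ncard = (cl ω univ x).card := by
  rw [supp_eq, Set.ncard_coe_finset]

theorem bad_of_not (t1 t2 : V → V) (ht1 : ∀ v, v ≠ t1 v) (ht2 : ∀ v, v ≠ t2 v)
    (ht12 : ∀ v, t1 v ≠ t2 v) (ω : Sym2 V → Bool)
    (h : ¬ LargestHasShortCycle 3 (graphOf ω)) : Bad t1 t2 ω := by
  unfold LargestHasShortCycle at h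
  push Not at h
  obtain ⟨c, hc, hn⟩ := h
  obtain ⟨x, rfl⟩ := c.exists_rep
  refine ⟨x, ?_, ?_⟩
  · intro y
    have := hc ((graphOf ω).connectedComponentMk y)
    have e1 := ncard_eq ω x
    have e2 := ncard_eq ω y
    rw [e2] at this
    exact this.trans e1.le
  · intro v hv hT
    apply hn
    obtain ⟨a1, a2, a3⟩ := hT
    have b1 : (graphOf ω).Adj v (t1 v) := (adj_iff ω _ _).2 ⟨a1, ht1 v⟩
    have b2 : (graphOf ω).Adj v (t2 v) := (adj_iff ω _ _).2 ⟨a2, ht2 v⟩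
    have b3 : (graphOf ω).Adj (t1 v) (t2 v) := (adj_iff ω _ _).2 ⟨a3, ht12 v⟩
    refine ⟨v, SimpleGraph.Walk.cons b1 (SimpleGraph.Walk.cons b3
      (SimpleGraph.Walk.cons b2.symm SimpleGraph.Walk.nil)), ?_, ?_, ?_⟩
    · have : v ∈ ((graphOf ω).connectedComponentMk x).supp := by
        rw [supp_eq]; exact hv
      exact this
    · have n1 := ht1 v
      have n2 := ht2 v
      have n3 := ht12 v
      simp only [SimpleGraph.Walk.isCycle_def]
      aesop
    · simp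

theorem prob_eq (π : Sym2 V → ℝ) (E : Set (SimpleGraph V)) :
    prob π E = ex π (fun ω => if graphOf ω ∈ E then 1 else 0) := by
  unfold prob ex wt
  refine Finset.sum_congr rfl fun ω _ => ?_
  by_cases h : graphOf ω ∈ E
  · simp only [if_pos h, mul_one]
  · simp only [if_neg h, mul_zero]

end graph

/-! ### The equation for `ζ_n` -/

theorem tele (T : ℝ) (n : ℕ) : ∑ i ∈ Finset.Icc 1 n, (T^i - T^(i-1)) = T^n - 1 := by
  induction n with
  | zero => simp
  | succ n ih =>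
    rw [Finset.sum_Icc_succ_top (by omega), ih]
    simp

theorem zeta_row {d L : ℕ} {ρ : ℝ → ℝ} {n : ℕ} {z : ℝ} (h : IsZeta d L ρ n z) :
    ∑ i ∈ Finset.Icc 1 n, (((L:ℝ)^d)^i - ((L:ℝ)^d)^(i-1)) *
      (1 - Real.exp (-(ρ ((L:ℝ)^i) / z))) = 1 := by
  have h2 := h.2
  rw [Finset.mul_sum] at h2
  have h3 : ∑ i ∈ Finset.Icc 1 n, ((L:ℝ)^d - 1) * ((L : ℝ) ^ ((i - 1) * d) *
      Real.exp (-(z⁻¹ * ρ ((L : ℝ) ^ i))))
      = ∑ i ∈ Finset.Icc 1 n, (((L:ℝ)^d)^i - ((L:ℝ)^d)^(i-1)) * Real.exp (-(ρ ((L:ℝ)^i) / z)) := by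
    refine Finset.sum_congr rfl fun i hi => ?_
    have hi' := (Finset.mem_Icc.1 hi).1
    have e1 : (L:ℝ)^((i-1)*d) = ((L:ℝ)^d)^(i-1) := by rw [mul_comm, pow_mul]
    have e2 : ((L:ℝ)^d)^i = (L:ℝ)^d * ((L:ℝ)^d)^(i-1) := by
      rw [← pow_succ']; congr 1; omega
    have e3 : z⁻¹ * ρ ((L:ℝ)^i) = ρ ((L:ℝ)^i) / z := by ring
    rw [e1, e2, e3]; ring
  rw [h3] at h2
  have e4 : (L:ℝ)^(n*d) = ((L:ℝ)^d)^n := by rw [mul_comm, pow_mul]
  rw [e4] at h2
  have h4 := tele ((L:ℝ)^d) n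
  have h5 : ∑ i ∈ Finset.Icc 1 n, (((L:ℝ)^d)^i - ((L:ℝ)^d)^(i-1)) *
      (1 - Real.exp (-(ρ ((L:ℝ)^i) / z)))
      = ∑ i ∈ Finset.Icc 1 n, (((L:ℝ)^d)^i - ((L:ℝ)^d)^(i-1))
        - ∑ i ∈ Finset.Icc 1 n, (((L:ℝ)^d)^i - ((L:ℝ)^d)^(i-1)) *
          Real.exp (-(ρ ((L:ℝ)^i) / z)) := by
    rw [← Finset.sum_sub_distrib]
    exact Finset.sum_congr rfl fun i _ => by ring
  rw [h5, h4, h2]; ring

theorem zeta_exists {d L : ℕ} (hd : 1 ≤ d) (hL : 2 ≤ L) {ρ : ℝ → ℝ}
    (hρ : ∀ i : ℕ, 0 < ρ ((L:ℝ)^i)) {n : ℕ} (hn : 2 ≤ n) : ∃! z, IsZeta d L ρ n z := by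
  have hL' : (2:ℝ) ≤ L := by exact_mod_cast hL
  have hL0 : (0:ℝ) < L := by linarith
  set T : ℝ := (L:ℝ)^d with hT
  have hT2 : 2 ≤ T := by
    calc (2:ℝ) ≤ L := hL'
      _ = (L:ℝ)^1 := (pow_one _).symm
      _ ≤ (L:ℝ)^d := pow_le_pow_right₀ (by linarith) hd
  set f : ℝ → ℝ := fun t => (T - 1) * ∑ i ∈ Finset.Icc 1 n,
    (L : ℝ) ^ ((i - 1) * d) * Real.exp (-(t * ρ ((L : ℝ) ^ i))) with hf
  have hTn : 4 ≤ (L:ℝ)^(n*d) := by
    calc (4:ℝ) = 2^2 := by norm_num
      _ ≤ (L:ℝ)^2 := pow_le_pow_left₀ (by norm_num) hL' 2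
      _ ≤ (L:ℝ)^(n*d) := by
        apply pow_le_pow_right₀ (by linarith)
        calc 2 = 2 * 1 := rfl
          _ ≤ n * d := Nat.mul_le_mul hn hd
  have hanti : StrictAnti f := by
    intro a b hab
    rw [hf]
    dsimp only
    apply mul_lt_mul_of_pos_left _ (by linarith : 0 < T - 1)
    apply Finset.sum_lt_sum_of_nonempty ⟨1, Finset.mem_Icc.2 ⟨le_rfl, by omega⟩⟩
    intro i _
    apply mul_lt_mul_of_pos_left _ (by positivity)
    apply Real.exp_lt_exp.2
    have := mul_lt_mul_of_pos_right hab (hρ i)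
    linarith
  have hcont : Continuous f := by
    rw [hf]; fun_prop
  have hf0 : f 0 = (L:ℝ)^(n*d) - 1 := by
    rw [hf]
    dsimp only
    simp only [zero_mul, neg_zero, Real.exp_zero, mul_one]
    rw [Finset.mul_sum]
    have : ∀ i ∈ Finset.Icc 1 n, (T - 1) * (L:ℝ)^((i-1)*d) = T^i - T^(i-1) := by
      intro i hi
      have hi' := (Finset.mem_Icc.1 hi).1
      have e1 : (L:ℝ)^((i-1)*d) = T^(i-1) := by rw [mul_comm, pow_mul]
      have e2 : T^i = T * T^(i-1) := by rw [← pow_succ']; congr 1; omega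
      rw [e1, e2]; ring
    rw [Finset.sum_congr rfl this, tele, hT, ← pow_mul, mul_comm d n]
  have hlim : Tendsto f atTop (𝓝 0) := by
    rw [hf]
    have h1 : Tendsto (fun t : ℝ => ∑ i ∈ Finset.Icc 1 n,
        (L : ℝ) ^ ((i - 1) * d) * Real.exp (-(t * ρ ((L : ℝ) ^ i)))) atTop
        (𝓝 (∑ i ∈ Finset.Icc 1 n, (L : ℝ) ^ ((i - 1) * d) * 0)) := by
      apply tendsto_finsetSum
      intro i _
      apply Tendsto.const_mul
      apply Real.tendsto_exp_neg_atTop_nhds_zero.comp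
      exact tendsto_id.atTop_mul_const (hρ i)
    have h2 := h1.const_mul (T - 1)
    simpa using h2
  have hev : ∀ᶠ t in atTop, f t < 1 := hlim.eventually (gt_mem_nhds (by norm_num))
  obtain ⟨M, hM1, hM2⟩ := (hev.and (eventually_ge_atTop (0:ℝ))).exists
  obtain ⟨t, ht, hft⟩ := intermediate_value_Icc' hM2 hcont.continuousOn
    (⟨by linarith, by rw [hf0]; linarith⟩ : (L:ℝ)^(n*d) - 2 ∈ Set.Icc (f M) (f 0))
  have ht0 : 0 < t := by
    rcases lt_or_eq_of_le ht.1 with h | h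
    · exact h
    · rw [← h, hf0] at hft; linarith
  refine ⟨t⁻¹, ⟨by positivity, ?_⟩, ?_⟩
  · rw [inv_inv]; exact hft
  · rintro y ⟨hy0, hy⟩
    have h1 : f y⁻¹ = f t := by rw [hft]; exact hy
    have h2 := hanti.injective h1
    rw [← h2, inv_inv]

/-! ### The main result -/

theorem edgeProb_eq {d L n : ℕ} (ρ : ℝ → ℝ) (z lam : ℝ) :
    edgeProb d L n ρ z lam = levP (d := d) (L := L) (n := n)
      (fun i => 1 - Real.exp (-(max (ρ (if i = 0 then 0 else (L:ℝ)^i) / z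
        + lam * (L : ℝ) ^ (-(4 * (n : ℝ) * d / 3))) 0))) := by
  ext e
  induction e using Sym2.ind with
  | _ x y =>
    rw [levP_mk]
    change 1 - Real.exp (-(kappa d L n ρ z lam x y)) = _
    unfold kappa
    have : hnorm (x - y) = if lev (x - y) = 0 then 0 else (L:ℝ)^(lev (x - y)) := by
      unfold hnorm
      by_cases h : x - y = 0
      · rw [if_pos h, if_pos ((lev_eq_zero _).2 h)]
      · rw [if_neg h, if_neg (fun h' => h ((lev_eq_zero _).1 h'))]
        rfl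
    rw [this]

/-- **Short cycles appear before `α = d`.** Let `d ≥ 1`, `L ≥ 2`, `0 < A₁ ≤ A₂`,
`7d/9 < α < d`, `ρ(0) = 0` and `A₁ r^{-α} ≤ ρ(r) ≤ A₂ r^{-α}` for `r ≥ 1`. Then `ζ_n` exists and is
unique for all `n ≥ 2`, and for every `λ ∈ ℝ`, with probability tending to one every largest
component of `G_n` contains a cycle of length at most three. -/
theorem result (d L : ℕ) [NeZero L] (hd : 1 ≤ d) (hL : 2 ≤ L) (A₁ A₂ α : ℝ) (hA₁ : 0 < A₁)
    (hA₁₂ : A₁ ≤ A₂) (hα₁ : 7 * (d : ℝ) / 9 < α) (hα₂ : α < d) (ρ : ℝ → ℝ) (hρ0 : ρ 0 = 0)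
    (hρ : ∀ r : ℝ, 1 ≤ r → A₁ * r ^ (-α) ≤ ρ r ∧ ρ r ≤ A₂ * r ^ (-α)) :
    (∀ n, 2 ≤ n → ∃! z, IsZeta d L ρ n z) ∧
    ∀ ζ : ℕ → ℝ, (∀ n, 2 ≤ n → IsZeta d L ρ n (ζ n)) → ∀ lam : ℝ,
      Tendsto (fun n => prob (edgeProb d L n ρ (ζ n) lam) {G | LargestHasShortCycle 3 G})
        atTop (𝓝 1) := by
  have hL' : (2:ℝ) ≤ L := by exact_mod_cast hL
  have hL0 : (0:ℝ) < L := by linarith
  have hL1 : (1:ℝ) < L := by linarith
  set A : ℝ := (L:ℝ)^α with hA
  have hA0 : 0 < A := Real.rpow_pos_of_pos hL0 α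
  have hρi : ∀ i : ℕ, A₁ / A^i ≤ ρ ((L:ℝ)^i) ∧ ρ ((L:ℝ)^i) ≤ A₂ / A^i := by
    intro i
    have h1 := hρ ((L:ℝ)^i) (one_le_pow₀ hL1.le)
    have h2 : ((L:ℝ)^i)^(-α) = 1/A^i := by
      rw [Real.rpow_neg (by positivity), one_div, hA, ← Real.rpow_natCast, ← Real.rpow_natCast,
        ← Real.rpow_mul hL0.le, ← Real.rpow_mul hL0.le, mul_comm α]
    rw [h2] at h1
    constructor
    · calc A₁ / A^i = A₁ * (1/A^i) := by ring
        _ ≤ _ := h1.1
    · calc ρ ((L:ℝ)^i) ≤ A₂ * (1/A^i) := h1.2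
        _ = _ := by ring
  have hρpos : ∀ i : ℕ, 0 < ρ ((L:ℝ)^i) := fun i => lt_of_lt_of_le (by positivity) (hρi i).1
  refine ⟨fun n hn => zeta_exists hd hL hρpos hn, ?_⟩
  intro ζ hζ lam
  set B : ℝ := (L:ℝ)^(4*(d:ℝ)/3) with hB
  have hB0 : 0 < B := Real.rpow_pos_of_pos hL0 _
  have hB3 : B^3 = ((L:ℝ)^d)^4 := by
    rw [hB, ← Real.rpow_natCast, ← Real.rpow_mul hL0.le, ← pow_mul, ← Real.rpow_natCast (L:ℝ)]
    congr 1; push_cast; ring
  have hBn : ∀ n : ℕ, (L:ℝ)^(-(4*(n:ℝ)*d/3)) = (1/B)^n := by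
    intro n
    rw [one_div, inv_pow, hB, ← Real.rpow_natCast, ← Real.rpow_mul hL0.le,
      ← Real.rpow_neg hL0.le]
    congr 1; ring
  have hA9 : ((L:ℝ)^d)^7 < A^9 := by
    rw [hA, ← Real.rpow_natCast, ← Real.rpow_natCast, ← Real.rpow_natCast, ← Real.rpow_mul hL0.le,
      ← Real.rpow_mul hL0.le]
    apply Real.rpow_lt_rpow_of_exponent_lt hL1
    push_cast
    linarith
  have hAT : A < (L:ℝ)^d := by
    rw [hA, ← Real.rpow_natCast]
    exact Real.rpow_lt_rpow_of_exponent_lt hL1 hα₂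
  set g : ℕ → ℕ → ℝ := fun n i => 1 - Real.exp (-(max (ρ (if i = 0 then 0 else (L:ℝ)^i) / ζ n
        + lam * (L : ℝ) ^ (-(4 * (n : ℝ) * d / 3))) 0)) with hg
  have hg01 : ∀ n i, 0 ≤ g n i ∧ g n i ≤ 1 := by
    intro n i
    rw [hg]
    dsimp only
    have h1 : 0 ≤ max (ρ (if i = 0 then 0 else (L:ℝ)^i) / ζ n
        + lam * (L : ℝ) ^ (-(4 * (n : ℝ) * d / 3))) 0 := le_max_right _ _
    have h2 := Real.exp_pos (-(max (ρ (if i = 0 then 0 else (L:ℝ)^i) / ζ n
        + lam * (L : ℝ) ^ (-(4 * (n : ℝ) * d / 3))) 0))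
    have h3 : Real.exp (-(max (ρ (if i = 0 then 0 else (L:ℝ)^i) / ζ n
        + lam * (L : ℝ) ^ (-(4 * (n : ℝ) * d / 3))) 0)) ≤ 1 :=
      Real.exp_le_one_iff.2 (by linarith)
    constructor <;> linarith
  have hmain := main_asym (d := d) (L := L) hd hL hA0 hA₁ hA₁₂ hA9 hAT hB0 hB3
    (ρi := fun i => ρ ((L:ℝ)^i)) (fun i _ => hρi i) (ζ := ζ)
    (fun n hn => (hζ n hn).1) (fun n hn => zeta_row (hζ n hn)) lam (g := g) hg01
    (by
      intro n hn i hi
      rw [hg]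
      dsimp only
      rw [hBn, if_neg (by rw [Finset.mem_Icc] at hi; omega)])
  have hone : ∀ n, ex (levP (d := d) (L := L) (n := n) (g n)) (fun _ => (1:ℝ)) = 1 :=
    fun n => ex_one _
  have hadm : ∀ n, Adm (levP (d := d) (L := L) (n := n) (g n)) := by
    intro n e
    induction e using Sym2.ind with
    | _ x y => exact hg01 _ _
  have hlow : Tendsto (fun n : ℕ => 1 - ex (levP (d := d) (L := L) (n := n) (g n))
      (fun ω => if Bad (fun v => v + uvec 0) (fun v => v + uvec 1) ω then 1 else 0))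
      atTop (𝓝 1) := by
    have := hmain.const_sub 1
    simpa using this
  refine tendsto_of_tendsto_of_tendsto_of_le_of_le' hlow tendsto_const_nhds ?_ ?_
  · filter_upwards [eventually_ge_atTop 2] with n hn
    rw [edgeProb_eq, prob_eq]
    have e1 : 1 - ex (levP (d := d) (L := L) (n := n) (g n))
        (fun ω => if Bad (fun v => v + uvec 0) (fun v => v + uvec 1) ω then 1 else 0)
        = ex (levP (d := d) (L := L) (n := n) (g n)) (fun ω => 1 -
        (if Bad (fun v => v + uvec 0) (fun v => v + uvec 1) ω then 1 else 0)) := by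
      rw [ex_sub, hone n]
    rw [e1]
    change ex (levP (g n)) _ ≤ ex (levP (g n)) _
    refine ex_mono (hadm n) fun ω => ?_
    have l1 : lev (uvec 0 : Ball d L n) = 1 := lev_uvec hd hL 0 (by omega)
    have l2 : lev (uvec 1 : Ball d L n) = 2 := lev_uvec hd hL 1 (by omega)
    have n1 : (uvec 0 : Ball d L n) ≠ 0 := by
      intro h; rw [← lev_eq_zero] at h; omega
    have n2 : (uvec 1 : Ball d L n) ≠ 0 := by
      intro h; rw [← lev_eq_zero] at h; omega
    have n3 : (uvec 0 : Ball d L n) ≠ uvec 1 := by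
      intro h; rw [h] at l1; omega
    by_cases hE : LargestHasShortCycle 3 (graphOf ω)
    · rw [if_pos (show graphOf ω ∈ {G | LargestHasShortCycle 3 G} from hE)]
      split_ifs <;> norm_num
    · have hbad := bad_of_not (fun v : Ball d L n => v + uvec 0) (fun v => v + uvec 1)
        (fun v h => n1 (by simpa using h.symm)) (fun v h => n2 (by simpa using h.symm))
        (fun v h => n3 (by simpa using h)) ω hE
      rw [if_pos hbad, if_neg (show graphOf ω ∉ {G | LargestHasShortCycle 3 G} from hE)]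
      norm_num
  · refine Eventually.of_forall fun n => ?_
    rw [edgeProb_eq, prob_eq]
    change ex (levP (g n)) _ ≤ 1
    refine le_trans (ex_mono (hadm n) (g := fun _ => 1) fun ω => ?_) (hone n).le
    split_ifs <;> norm_num

end Pool.Agent.Results.MP_c53cb9_pr.TrianglesAppear
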